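import Mathlib

set_option autoImplicit false

open MeasureTheory Set Filter Topology
open scoped ENNReal NNReal

namespace Pool.Agent.Results.MP_2d1133_lc.PlanarImages

/-- A Hausdorff null set has a `G_δ` hull of finite measure. -/
lemma hull {X : Type} [EMetricSpace X] [MeasurableSpace X] [BorelSpace X] {d : ℝ} (hd : 0 < d)
    {D : Set X} (h : μH[d] D = 0) :
    ∃ U : ℕ → Set X, (∀ i, IsOpen (U i)) ∧ (∀ i, D ⊆ U i) ∧ μH[d] (⋂ i, U i) ≠ ∞ := by
  have h1 : ∀ i : ℕ, ∃ V : ℕ → Set X, (∀ n, IsOpen (V n)) ∧ D ⊆ ⋃ n, V n ∧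
      (∀ n, Metric.ediam (V n) ≤ 3 * ((i + 1 : ℕ) : ℝ≥0∞)⁻¹) ∧
      ∑' n, Metric.ediam (V n) ^ d ≤ 3 := by
    intro i
    set r : ℝ≥0∞ := ((i + 1 : ℕ) : ℝ≥0∞)⁻¹ with hr
    have hr0 : 0 < r := ENNReal.inv_pos.2 (ENNReal.natCast_ne_top _)
    have hrt : r ≠ ∞ := ENNReal.inv_ne_top.2 (by simp)
    have h2 := (Measure.hausdorffMeasure_apply d D).symm.trans h
    simp only [ENNReal.iSup_eq_zero] at h2
    have h3 := (h2 r hr0).trans_lt zero_lt_one
    simp only [iInf_lt_iff] at h3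
    obtain ⟨t, ht1, ht2, ht3⟩ := h3
    have h4 : ∀ n, ∃ δ : ℝ≥0, 0 < δ ∧ (δ : ℝ≥0∞) ≤ r ∧
        (Metric.ediam (t n) + 2 * δ) ^ d ≤ Metric.ediam (t n) ^ d + 2⁻¹ ^ n := by
      intro n
      have hc : Continuous (fun δ : ℝ≥0 => (Metric.ediam (t n) + 2 * (δ : ℝ≥0∞)) ^ d) :=
        ENNReal.continuous_rpow_const.comp (continuous_const.add
          ((ENNReal.continuous_const_mul (by simp)).comp ENNReal.continuous_coe))
      have h5 : ∀ᶠ δ : ℝ≥0 in 𝓝 0, (Metric.ediam (t n) + 2 * (δ : ℝ≥0∞)) ^ d <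
          Metric.ediam (t n) ^ d + 2⁻¹ ^ n := by
        refine hc.continuousAt.eventually_lt continuousAt_const ?_
        simp only [ENNReal.coe_zero, mul_zero, add_zero]
        exact ENNReal.lt_add_right
          (ENNReal.rpow_ne_top_of_nonneg hd.le (ne_top_of_le_ne_top hrt (ht2 n))) (by simp)
      have h6 : ∀ᶠ δ : ℝ≥0 in 𝓝 0, (δ : ℝ≥0∞) < r :=
        ENNReal.continuous_coe.continuousAt.eventually_lt continuousAt_const (by simpa using hr0)
      obtain ⟨δ, h7, h8⟩ := (((h5.and h6).filter_mono nhdsWithin_le_nhds).and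
        (self_mem_nhdsWithin (s := Ioi (0 : ℝ≥0)))).exists
      exact ⟨δ, h8, h7.2.le, h7.1.le⟩
    choose δ h5 h6 h7 using h4
    refine ⟨fun n => Metric.thickening (δ n) (t n), fun n => Metric.isOpen_thickening,
      ht1.trans (iUnion_mono fun n => Metric.self_subset_thickening (h5 n) _), fun n => ?_, ?_⟩
    · refine (Metric.ediam_thickening_le _).trans ?_
      calc _ ≤ r + 2 * r := add_le_add (ht2 n) (by gcongr; exact h6 n)
        _ = 3 * r := by ring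
    · have h8 : ∀ n, Metric.ediam (Metric.thickening (δ n) (t n)) ^ d ≤
          (⨆ _ : (t n).Nonempty, Metric.ediam (t n) ^ d) + 2⁻¹ ^ n := by
        intro n
        rcases (t n).eq_empty_or_nonempty with h0 | h0
        · simp [h0, hd]
        · rw [iSup_pos h0]
          exact (ENNReal.rpow_le_rpow (Metric.ediam_thickening_le _) hd.le).trans (h7 n)
      refine (ENNReal.tsum_le_tsum h8).trans ?_
      rw [ENNReal.tsum_add, ENNReal.tsum_geometric]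
      calc _ ≤ 1 + 2 := add_le_add ht3.le (by simp)
        _ = 3 := by norm_num
  choose V h2 h3 h4 h5 using h1
  refine ⟨fun i => ⋃ n, V i n, fun i => isOpen_iUnion (h2 i), h3, ?_⟩
  have h6 := Measure.hausdorffMeasure_le_liminf_tsum d (⋂ i, ⋃ n, V i n) (l := atTop)
    (fun i : ℕ => 3 * ((i + 1 : ℕ) : ℝ≥0∞)⁻¹) (by
      have := ENNReal.Tendsto.const_mul (a := 3)
        (ENNReal.tendsto_inv_nat_nhds_zero.comp (tendsto_add_atTop_nat 1)) (Or.inr (by simp))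
      simpa using this) V (Eventually.of_forall h4)
    (Eventually.of_forall (fun i => iInter_subset (fun i => ⋃ n, V i n) i))
  refine ne_top_of_le_ne_top (b := 3) (by simp) (h6.trans ?_)
  exact liminf_le_of_frequently_le' (Frequently.of_forall h5)

variable (m : ℕ)

/-- Truncated base `m` expansion. -/
noncomputable def a (n : ℕ) (x : ℝ) : ℤ := ⌊(m : ℝ) ^ n * x⌋

/-- Base `m` digits. -/
noncomputable def dg (n : ℕ) (x : ℝ) : ℤ := a m (n + 1) x - m * a m n x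

/-- Paired digits. -/
noncomputable def DD (n : ℕ) (p : ℝ × ℝ) : ℤ := m * dg m n p.1 + dg m n p.2

/-- The interleaving map, written in base `4 m ^ 2`. -/
noncomputable def F (p : ℝ × ℝ) : ℝ := ∑' n, (DD m n p : ℝ) * (1 / (4 * (m : ℝ) ^ 2)) ^ (n + 1)

variable {m}

lemma dg_bd (hm : 0 < m) (n : ℕ) (x : ℝ) : 0 ≤ dg m n x ∧ dg m n x < m := by
  have hm' : (0 : ℝ) < m := by exact_mod_cast hm
  have h1 := Int.floor_le ((m : ℝ) ^ n * x)
  have h2 := Int.lt_floor_add_one ((m : ℝ) ^ n * x)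
  constructor
  · rw [dg, sub_nonneg, a, a, Int.le_floor]
    push_cast
    rw [pow_succ]; nlinarith
  · rw [dg, sub_lt_iff_lt_add, a, a, Int.floor_lt]
    push_cast
    rw [pow_succ]; nlinarith

lemma DD_bd (hm : 0 < m) (n : ℕ) (p : ℝ × ℝ) : 0 ≤ DD m n p ∧ DD m n p ≤ m ^ 2 := by
  obtain ⟨h1, h2⟩ := dg_bd hm n p.1
  obtain ⟨h3, h4⟩ := dg_bd hm n p.2
  have : (0 : ℤ) < m := by exact_mod_cast hm
  rw [DD]; constructor <;> nlinarith

lemma DD_inj (hm : 0 < m) {n : ℕ} {p q : ℝ × ℝ} (h : DD m n p = DD m n q) :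
    dg m n p.1 = dg m n q.1 ∧ dg m n p.2 = dg m n q.2 := by
  obtain ⟨h1, h2⟩ := dg_bd hm n p.2
  obtain ⟨h3, h4⟩ := dg_bd hm n q.2
  have : (0 : ℤ) < m := by exact_mod_cast hm
  rw [DD, DD] at h
  have h5 : dg m n p.1 = dg m n q.1 := by
    rcases lt_trichotomy (dg m n p.1) (dg m n q.1) with h5 | h5 | h5
    · nlinarith
    · exact h5
    · nlinarith
  rw [h5] at h
  exact ⟨h5, by linarith⟩

lemma close (hm : 0 < m) {p q : ℝ × ℝ} (h0 : a m 0 p.1 = a m 0 q.1 ∧ a m 0 p.2 = a m 0 q.2)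
    (n : ℕ) (h : ∀ j < n, DD m j p = DD m j q) : dist p q ≤ (1 / (m : ℝ)) ^ n := by
  have hm' : (0 : ℝ) < m := by exact_mod_cast hm
  have h1 : a m n p.1 = a m n q.1 ∧ a m n p.2 = a m n q.2 := by
    induction n with
    | zero => exact h0
    | succ k ih =>
      obtain ⟨h2, h3⟩ := ih (fun j hj => h j (hj.trans (Nat.lt_succ_self k)))
      obtain ⟨h4, h5⟩ := DD_inj hm (h k (Nat.lt_succ_self k))
      rw [dg, dg, h2] at h4
      rw [dg, dg, h3] at h5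
      exact ⟨by linarith, by linarith⟩
  have h2 : ∀ x y : ℝ, a m n x = a m n y → dist x y ≤ (1 / (m : ℝ)) ^ n := by
    intro x y hxy
    have := Int.abs_sub_lt_one_of_floor_eq_floor hxy
    rw [← mul_sub, abs_mul, abs_of_pos (pow_pos hm' n)] at this
    rw [Real.dist_eq, one_div_pow, le_div_iff₀ (pow_pos hm' n)]
    linarith
  rw [Prod.dist_eq]
  exact max_le (h2 _ _ h1.1) (h2 _ _ h1.2)

lemma ratio (hm : 0 < m) : 0 < 1 / (4 * (m : ℝ) ^ 2) ∧ 1 / (4 * (m : ℝ) ^ 2) ≤ 1 / 2 := by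
  have hm' : (1 : ℝ) ≤ m := by exact_mod_cast hm
  refine ⟨by positivity, one_div_le_one_div_of_le (by norm_num) (by nlinarith)⟩

lemma term_bd (hm : 0 < m) (n : ℕ) (p : ℝ × ℝ) :
    ‖(DD m n p : ℝ) * (1 / (4 * (m : ℝ) ^ 2)) ^ (n + 1)‖ ≤
      (m : ℝ) ^ 2 * (1 / (4 * (m : ℝ) ^ 2)) ^ (n + 1) := by
  obtain ⟨h1, h2⟩ := DD_bd hm n p
  have h3 : (0 : ℝ) ≤ DD m n p := by exact_mod_cast h1
  have h4 : (DD m n p : ℝ) ≤ (m : ℝ) ^ 2 := by exact_mod_cast h2
  have h5 := pow_pos (ratio hm).1 (n + 1)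
  rw [Real.norm_of_nonneg (by positivity)]
  exact mul_le_mul_of_nonneg_right h4 h5.le

lemma geo (hm : 0 < m) :
    Summable (fun n : ℕ => (m : ℝ) ^ 2 * (1 / (4 * (m : ℝ) ^ 2)) ^ (n + 1)) :=
  ((summable_nat_add_iff 1).2 (summable_geometric_of_lt_one (ratio hm).1.le
    ((ratio hm).2.trans_lt (by norm_num)))).mul_left _

lemma far (hm : 0 < m) {p q : ℝ × ℝ} (n : ℕ) (h : ∀ j < n, DD m j p = DD m j q)
    (hn : DD m n p ≠ DD m n q) : (1 / (4 * (m : ℝ) ^ 2)) ^ (n + 1) ≤ 2 * |F m p - F m q| := by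
  obtain ⟨hr0, hr1⟩ := ratio hm
  have hm' : (0 : ℝ) < m := by exact_mod_cast hm
  set r := 1 / (4 * (m : ℝ) ^ 2) with hr
  have s1 := fun p => (geo hm).of_norm_bounded (fun j => term_bd hm j p)
  let u : ℕ → ℝ := fun j => ((DD m j p - DD m j q : ℤ) : ℝ) * r ^ (j + 1)
  have h1 : F m p - F m q = ∑' j, u j := by
    rw [F, F, ← (s1 p).tsum_sub (s1 q)]
    refine tsum_congr (fun j => ?_)
    simp only [u]; push_cast; ring
  have hu : Summable u := ((s1 p).sub (s1 q)).congr (fun j => by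
    simp only [u]; push_cast; ring)
  have h2 : ∑ j ∈ Finset.range (n + 1), u j = u n := by
    rw [Finset.sum_range_succ, Finset.sum_eq_zero, zero_add]
    intro j hj
    simp [u, h j (Finset.mem_range.1 hj)]
  have h3 : r ^ (n + 1) ≤ |u n| := by
    simp only [u]
    rw [abs_mul, abs_of_pos (pow_pos hr0 _)]
    have : (1 : ℝ) ≤ |((DD m n p - DD m n q : ℤ) : ℝ)| := by
      exact_mod_cast Int.one_le_abs (sub_ne_zero.2 hn)
    nlinarith [pow_pos hr0 (n + 1)]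
  have h4 : ‖∑' j, u (j + (n + 1))‖ ≤ r ^ (n + 1) / 4 * 2 := by
    refine tsum_of_norm_bounded (hasSum_geometric_two.mul_left (r ^ (n + 1) / 4)) (fun j => ?_)
    simp only [u]
    obtain ⟨a1, a2⟩ := DD_bd hm (j + (n + 1)) p
    obtain ⟨a3, a4⟩ := DD_bd hm (j + (n + 1)) q
    have h5 : |((DD m (j + (n + 1)) p - DD m (j + (n + 1)) q : ℤ) : ℝ)| ≤ (m : ℝ) ^ 2 := by
      have h7 : |DD m (j + (n + 1)) p - DD m (j + (n + 1)) q| ≤ (m : ℤ) ^ 2 :=
        abs_le.2 ⟨by linarith, by linarith⟩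
      exact_mod_cast h7
    rw [Real.norm_eq_abs, abs_mul, abs_of_pos (pow_pos hr0 _)]
    have h6 : (m : ℝ) ^ 2 * r = 1 / 4 := by rw [hr]; field_simp
    calc _ ≤ (m : ℝ) ^ 2 * r ^ (j + (n + 1) + 1) :=
          mul_le_mul_of_nonneg_right h5 (pow_pos hr0 _).le
      _ = r ^ (n + 1) * ((m : ℝ) ^ 2 * r) * r ^ j := by ring
      _ ≤ _ := by
          rw [h6, mul_one_div]
          exact mul_le_mul_of_nonneg_left (pow_le_pow_left₀ hr0.le hr1 j) (by positivity)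
  rw [h1, ← hu.sum_add_tsum_nat_add (n + 1), h2]
  rw [Real.norm_eq_abs] at h4
  have h5 := abs_sub (u n + ∑' j, u (j + (n + 1))) (∑' j, u (j + (n + 1)))
  rw [add_sub_cancel_right] at h5
  linarith

lemma hold (k : ℕ) (hk : 0 < k) {p q : ℝ × ℝ}
    (h0 : a (2 ^ k) 0 p.1 = a (2 ^ k) 0 q.1 ∧ a (2 ^ k) 0 p.2 = a (2 ^ k) 0 q.2) :
    dist p q ≤ (8 * ((2 ^ k : ℕ) : ℝ) ^ 2) ^ ((k : ℝ) / (2 * k + 2)) *
      dist (F (2 ^ k) p) (F (2 ^ k) q) ^ ((k : ℝ) / (2 * k + 2)) := by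
  classical
  have hm : 0 < 2 ^ k := by positivity
  have hα : 0 ≤ (k : ℝ) / (2 * k + 2) := by positivity
  by_cases h : ∃ n, DD (2 ^ k) n p ≠ DD (2 ^ k) n q
  · have h1 : ∀ j < Nat.find h, DD (2 ^ k) j p = DD (2 ^ k) j q :=
      fun j hj => not_not.1 (Nat.find_min h hj)
    have h2 := far hm _ h1 (Nat.find_spec h)
    refine (close hm h0 _ h1).trans ?_
    rw [← Real.mul_rpow (by positivity) dist_nonneg, Real.dist_eq]
    have h3 : (1 / (4 * ((2 ^ k : ℕ) : ℝ) ^ 2)) ^ (Nat.find h) ≤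
        8 * ((2 ^ k : ℕ) : ℝ) ^ 2 * |F (2 ^ k) p - F (2 ^ k) q| := by
      rw [pow_succ, mul_one_div, div_le_iff₀ (by positivity)] at h2
      linarith
    refine le_trans (le_of_eq ?_) (Real.rpow_le_rpow (by positivity) h3 hα)
    rw [← Real.rpow_pow_comm (by positivity)]
    congr 1
    have h4 : (4 * ((2 ^ k : ℕ) : ℝ) ^ 2) = (2 : ℝ) ^ ((2 * k + 2 : ℕ) : ℝ) := by
      rw [Real.rpow_natCast]; push_cast; ring
    rw [h4, Real.div_rpow (by norm_num) (by positivity), Real.one_rpow,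
      ← Real.rpow_mul (by norm_num)]
    congr 1
    have h5 : ((2 * k + 2 : ℕ) : ℝ) * ((k : ℝ) / (2 * k + 2)) = k := by
      push_cast; field_simp
    rw [h5, Real.rpow_natCast]; push_cast; rfl
  · push Not at h
    refine le_trans ?_ (by positivity : (0 : ℝ) ≤ _)
    have h1 : (1 / ((2 ^ k : ℕ) : ℝ)) < 1 := by
      rw [div_lt_one (by positivity)]
      exact_mod_cast Nat.one_lt_two_pow hk.ne'
    exact ge_of_tendsto' (tendsto_pow_atTop_nhds_zero_of_lt_one (by positivity) h1)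
      (fun n => close hm h0 n (fun j _ => h j))

lemma dim_cell (k : ℕ) (hk : 0 < k) (A : Set (ℝ × ℝ)) (u v : ℤ)
    (hA : ∀ p ∈ A, a (2 ^ k) 0 p.1 = u ∧ a (2 ^ k) 0 p.2 = v) :
    dimH A ≤ dimH (F (2 ^ k) '' A) / ENNReal.ofReal ((k : ℝ) / (2 * k + 2)) := by
  have hα : 0 < (k : ℝ) / (2 * k + 2) := by positivity
  have h1 := fun p (hp : p ∈ A) q (hq : q ∈ A) => hold k hk (p := p) (q := q)
    ⟨(hA p hp).1.trans (hA q hq).1.symm, (hA p hp).2.trans (hA q hq).2.symm⟩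
  have hi : InjOn (F (2 ^ k)) A := by
    intro p hp q hq h
    have := h1 p hp q hq
    rw [h, dist_self, Real.zero_rpow hα.ne', mul_zero] at this
    exact dist_le_zero.1 this
  have h2 : HolderOnWith ((8 * ((2 ^ k : ℕ) : ℝ) ^ 2) ^ ((k : ℝ) / (2 * k + 2))).toNNReal
      ((k : ℝ) / (2 * k + 2)).toNNReal (Function.invFunOn (F (2 ^ k)) A) (F (2 ^ k) '' A) := by
    rintro _ ⟨p, hp, rfl⟩ _ ⟨q, hq, rfl⟩
    rw [hi.leftInvOn_invFunOn hp, hi.leftInvOn_invFunOn hq, edist_dist, edist_dist,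
      Real.coe_toNNReal _ hα.le, ENNReal.ofReal_rpow_of_nonneg dist_nonneg hα.le]
    refine (ENNReal.ofReal_le_ofReal (h1 p hp q hq)).trans (le_of_eq ?_)
    rw [ENNReal.ofReal_mul (by positivity)]
    rfl
  have h3 := h2.dimH_image_le (Real.toNNReal_pos.2 hα)
  rwa [hi.invFunOn_image Subset.rfl] at h3

lemma cont_F (hm : 0 < m) {K : Set (ℝ × ℝ)}
    (hK : ∀ p ∈ K, ∀ (n : ℕ) (z : ℤ), (m : ℝ) ^ n * p.1 ≠ z ∧ (m : ℝ) ^ n * p.2 ≠ z) :
    ContinuousOn (F m) K := by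
  have h1 : ∀ (n : ℕ) (x : ℝ), (∀ z : ℤ, (m : ℝ) ^ n * x ≠ z) →
      ContinuousAt (fun y => (a m n y : ℝ)) x := by
    intro n x hx
    have h2 : (fun y => (a m n y : ℝ)) = fun y => (m : ℝ) ^ n * y - Int.fract ((m : ℝ) ^ n * y) := by
      funext y; simp [a]
    rw [h2]
    have h3 : ContinuousAt (fun y : ℝ => (m : ℝ) ^ n * y) x := by fun_prop
    exact h3.sub (ContinuousAt.comp (f := fun y : ℝ => (m : ℝ) ^ n * y)
      (continuousAt_fract (hx _)) h3)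
  refine continuousOn_tsum (fun n p hp => ContinuousAt.continuousWithinAt ?_) (geo hm)
    (fun n p _ => term_bd hm n p)
  have a1 := fun j => (h1 j p.1 (fun z => (hK p hp j z).1)).comp (f := Prod.fst) continuousAt_fst
  have a2 := fun j => (h1 j p.2 (fun z => (hK p hp j z).2)).comp (f := Prod.snd) continuousAt_snd
  simp only [DD, dg]
  push_cast
  exact ((continuousAt_const.mul ((a1 _).sub (continuousAt_const.mul (a1 _)))).add
    ((a2 _).sub (continuousAt_const.mul (a2 _)))).mul continuousAt_const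

lemma main (E : Set (ℝ × ℝ)) (c : ℝ) (t : ℝ≥0) (k : ℕ) (hk : 0 < k) (ht : 1 < t)
    (hct : c * (2 * k + 2) ≤ t * k)
    (H : ∀ f : ℝ × ℝ → ℝ, Continuous f → dimH (f '' E) ≤ ENNReal.ofReal c) : dimH E ≤ t := by
  have hm : 0 < 2 ^ k := by positivity
  set m := 2 ^ k with hmk
  have hm' : (0 : ℝ) < m := by exact_mod_cast hm
  let D : Set (ℝ × ℝ) := ⋃ n : ℕ, ⋃ z : ℤ,
    range (fun y : ℝ => ((z / (m : ℝ) ^ n, y) : ℝ × ℝ)) ∪
      range (fun y : ℝ => ((y, z / (m : ℝ) ^ n) : ℝ × ℝ))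
  have hD : dimH D ≤ 1 := by
    simp only [D, dimH_iUnion, dimH_union]
    refine iSup_le (fun n => iSup_le (fun z => max_le ?_ ?_))
    · simpa using ContDiff.dimH_range_le
        (f := fun y : ℝ => ((z / (m : ℝ) ^ n, y) : ℝ × ℝ)) (by fun_prop)
    · simpa using ContDiff.dimH_range_le
        (f := fun y : ℝ => ((y, z / (m : ℝ) ^ n) : ℝ × ℝ)) (by fun_prop)
  obtain ⟨U, h1, h2, h3⟩ := hull (d := t) (D := D) (by exact_mod_cast zero_lt_one.trans ht)
    (hausdorffMeasure_of_dimH_lt (hD.trans_lt (by exact_mod_cast ht)))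
  have h4 : E ⊆ (⋂ i, U i) ∪ ⋃ i, ⋃ u : ℤ, ⋃ v : ℤ,
      {p | p ∈ E ∧ p ∉ U i ∧ a m 0 p.1 = u ∧ a m 0 p.2 = v} := by
    intro p hp
    by_cases h : ∀ i, p ∈ U i
    · exact Or.inl (mem_iInter.2 h)
    · push Not at h
      obtain ⟨i, hi⟩ := h
      exact Or.inr (mem_iUnion.2 ⟨i, mem_iUnion.2 ⟨_, mem_iUnion.2 ⟨_, hp, hi, rfl, rfl⟩⟩⟩)
  refine (dimH_mono h4).trans ?_
  simp only [dimH_iUnion, dimH_union]
  refine max_le (dimH_le_of_hausdorffMeasure_ne_top h3)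
    (iSup_le fun i => iSup_le fun u => iSup_le fun v => ?_)
  have h5 : ContinuousOn (F m) (U i)ᶜ := by
    refine cont_F hm (fun p hp n z => ⟨fun h => hp (h2 i ?_), fun h => hp (h2 i ?_)⟩)
    · refine mem_iUnion.2 ⟨n, mem_iUnion.2 ⟨z, Or.inl ⟨p.2, Prod.ext ?_ rfl⟩⟩⟩
      simp only; rw [← h]; field_simp
    · refine mem_iUnion.2 ⟨n, mem_iUnion.2 ⟨z, Or.inr ⟨p.1, Prod.ext rfl ?_⟩⟩⟩
      simp only; rw [← h]; field_simp
  obtain ⟨g, hg⟩ := ContinuousMap.exists_restrict_eq (h1 i).isClosed_compl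
    (⟨_, h5.domRestrict⟩ : C(((U i)ᶜ : Set (ℝ × ℝ)), ℝ))
  refine (dim_cell k hk _ u v (fun p hp => hp.2.2)).trans ?_
  have h6 : F m '' {p | p ∈ E ∧ p ∉ U i ∧ a m 0 p.1 = u ∧ a m 0 p.2 = v} ⊆ g '' E := by
    rintro _ ⟨p, hp, rfl⟩
    exact ⟨p, hp.1, DFunLike.congr_fun hg ⟨p, hp.2.1⟩⟩
  have hα : 0 < (k : ℝ) / (2 * k + 2) := by positivity
  refine ENNReal.div_le_of_le_mul (((dimH_mono h6).trans (H g g.continuous)).trans ?_)
  rw [← ENNReal.ofReal_coe_nnreal, ← ENNReal.ofReal_mul t.coe_nonneg]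
  refine ENNReal.ofReal_le_ofReal ?_
  rw [← mul_div_assoc, le_div_iff₀ (by positivity)]
  exact hct

/-- For `0 < s < 1`, every planar set of Hausdorff dimension `1 + s` has a continuous real image
of Hausdorff dimension larger than `s`. -/
theorem result (s : ℝ) (hs0 : 0 < s) (hs1 : s < 1) (E : Set (EuclideanSpace ℝ (Fin 2)))
    (hE : dimH E = ENNReal.ofReal (1 + s)) :
    ∃ f : EuclideanSpace ℝ (Fin 2) → ℝ, Continuous f ∧ ENNReal.ofReal s < dimH (f '' E) := by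
  by_contra hcon
  push Not at hcon
  let e : EuclideanSpace ℝ (Fin 2) ≃L[ℝ] ℝ × ℝ :=
    (EuclideanSpace.equiv (Fin 2) ℝ).trans (ContinuousLinearEquiv.finTwoArrow ℝ ℝ)
  obtain ⟨k, hk⟩ := exists_nat_gt (4 * s / (1 - s))
  rw [div_lt_iff₀ (by linarith)] at hk
  have hk0 : 0 < k := by
    rcases Nat.eq_zero_or_pos k with h | h
    · rw [h] at hk; simp at hk; linarith
    · exact h
  have hk1 : (0 : ℝ) < k := by exact_mod_cast hk0
  have h0 : 0 ≤ max (1 + s / 2) ((1 + 3 * s) / 2) := le_max_of_le_left (by linarith)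
  have h1 := main (e '' E) s ⟨max (1 + s / 2) ((1 + 3 * s) / 2), h0⟩ k hk0
    (by
      rw [← NNReal.coe_lt_coe]
      exact lt_max_of_lt_left (by simp; linarith))
    (by
      refine le_trans ?_ (mul_le_mul_of_nonneg_right (le_max_right (1 + s / 2) _) hk1.le)
      nlinarith)
    (fun f hf => by
      rw [image_image]
      exact hcon (fun x => f (e x)) (hf.comp e.continuous))
  rw [e.dimH_image, hE, ← ENNReal.ofReal_coe_nnreal] at h1
  exact absurd ((ENNReal.ofReal_le_ofReal_iff h0).1 h1)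
    (not_le.2 (max_lt (by linarith) (by linarith)))

end Pool.Agent.Results.MP_2d1133_lc.PlanarImages
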